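import Pool.Agent.H589.Boyd.Final2

/-!
# Mahler measures of irreducible polynomials of growing dimension

Let `F n` be irreducible integer polynomials whose dimensions tend to infinity, each of them
nonreciprocal or of degree `d ≥ 1` with `d ^ 5 ≤ dim` in some variable.  Then `m(F n) → ∞`, and for
every nonzero integer polynomial `G` only finitely many `n` have `m(F n) ∈ 𝓜(G)`.
-/

set_option autoImplicit false

open MeasureTheory Filter

namespace Pool.Agent.Results.MP_44c6d5_nt.NonreciprocalOrSmallDegree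

/-- value of `P` at the point of the torus with angles `θ` -/
noncomputable def valueAt {n : ℕ} (P : MvPolynomial (Fin n) ℤ) (θ : Fin n → ℝ) : ℂ :=
  MvPolynomial.eval₂ (Int.castRingHom ℂ)
    (fun i : Fin n => Complex.exp (2 * (Real.pi : ℂ) * Complex.I * ((θ i : ℝ) : ℂ))) P

/-- the logarithmic Mahler measure -/
noncomputable def logMahler {n : ℕ} (P : MvPolynomial (Fin n) ℤ) : ℝ :=
  ∫ θ in Set.Icc (0 : Fin n → ℝ) 1, Real.log ‖valueAt P θ‖

/-- dimension of the exponent polytope -/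
noncomputable def newtonDim {n : ℕ} (P : MvPolynomial (Fin n) ℤ) : ℕ :=
  Module.finrank ℝ (vectorSpan ℝ ((fun e : Fin n →₀ ℕ => fun i : Fin n => (e i : ℝ)) ''
    (P.support : Set (Fin n →₀ ℕ))))

/-- `P` is reciprocal: `P(x) = ± x ^ c * P(1/x)` for some exponent `c` -/
def IsReciprocal {n : ℕ} (P : MvPolynomial (Fin n) ℤ) : Prop :=
  ∃ c : Fin n →₀ ℕ, ∃ ε : ℤ, (ε = 1 ∨ ε = -1) ∧ (∀ e ∈ P.support, e ≤ c) ∧
    ∀ e ∈ P.support, P.coeff (c - e) = ε * P.coeff e

/-- the value of `F_A` at the point of the torus with angles `θ` -/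
noncomputable def valueSub {k l : ℕ} (F : MvPolynomial (Fin k) ℤ) (A : Fin l → Fin k → ℤ)
    (θ : Fin l → ℝ) : ℂ :=
  valueAt F (fun j => ∑ i, (A i j : ℝ) * θ i)

/-- the set `𝓜(F)` of the numbers `m(F_A)`, `F_A ≠ 0` -/
def measureSet {k : ℕ} (F : MvPolynomial (Fin k) ℤ) : Set ℝ :=
  {x | ∃ (l : ℕ) (A : Fin l → Fin k → ℤ), (∃ θ, valueSub F A θ ≠ 0) ∧
    x = ∫ θ in Set.Icc (0 : Fin l → ℝ) 1, Real.log ‖valueSub F A θ‖}

lemma norm_valueAt_le {k : ℕ} (F : MvPolynomial (Fin k) ℤ) (θ : Fin k → ℝ) :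
    ‖valueAt F θ‖ ≤ ∑ e ∈ F.support, ‖((F.coeff e : ℤ) : ℂ)‖ := by
  unfold valueAt
  rw [MvPolynomial.eval₂_eq']
  refine (norm_sum_le _ _).trans (Finset.sum_le_sum fun e _ => ?_)
  rw [norm_mul]
  have h1 : ‖∏ i, Complex.exp (2 * (Real.pi : ℂ) * Complex.I * ((θ i : ℝ) : ℂ)) ^ e i‖ = 1 := by
    rw [norm_prod]
    refine Finset.prod_eq_one fun i _ => ?_
    rw [norm_pow]
    have : ‖Complex.exp (2 * (Real.pi : ℂ) * Complex.I * ((θ i : ℝ) : ℂ))‖ = 1 := by
      rw [show 2 * (Real.pi : ℂ) * Complex.I * ((θ i : ℝ) : ℂ) =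
        ((2 * Real.pi * θ i : ℝ) : ℂ) * Complex.I by push_cast; ring]
      exact Complex.norm_exp_ofReal_mul_I _
    rw [this, one_pow]
  rw [h1, mul_one]
  simp

lemma measureSet_bdd {k : ℕ} (F : MvPolynomial (Fin k) ℤ) :
    ∃ C : ℝ, ∀ x ∈ measureSet F, x ≤ C := by
  set L : ℝ := ∑ e ∈ F.support, ‖((F.coeff e : ℤ) : ℂ)‖ with hL
  refine ⟨Real.log (max 1 L), ?_⟩
  rintro x ⟨l, A, -, rfl⟩
  have h0 : 0 ≤ Real.log (max 1 L) := Real.log_nonneg (le_max_left _ _)
  have hle : ∀ θ : Fin l → ℝ, Real.log ‖valueSub F A θ‖ ≤ Real.log (max 1 L) := by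
    intro θ
    by_cases hz : ‖valueSub F A θ‖ = 0
    · rw [hz, Real.log_zero]; exact h0
    · exact Real.log_le_log (lt_of_le_of_ne (norm_nonneg _) (Ne.symm hz))
        ((norm_valueAt_le F _).trans (le_max_right _ _))
  by_cases hi : IntegrableOn (fun θ : Fin l → ℝ => Real.log ‖valueSub F A θ‖)
      (Set.Icc (0 : Fin l → ℝ) 1)
  · have hvol : volume.real (Set.Icc (0 : Fin l → ℝ) 1) = 1 := by
      simp [Measure.real, Real.volume_Icc_pi]
    have hc : IntegrableOn (fun _ : Fin l → ℝ => Real.log (max 1 L))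
        (Set.Icc (0 : Fin l → ℝ) 1) := by
      refine integrableOn_const ?_ ?_
      · exact isCompact_Icc.measure_lt_top.ne
      · simp
    have h1 := setIntegral_mono hi hc hle
    rwa [setIntegral_const, hvol, one_smul] at h1
  · rw [integral_undef hi]; exact h0

lemma key {k : ℕ} (P : MvPolynomial (Fin k) ℤ) (hP : Irreducible P)
    (h : ¬ IsReciprocal P ∨ ∃ i, 1 ≤ P.degreeOf i ∧ P.degreeOf i ^ 5 ≤ newtonDim P) :
    (newtonDim P : ℝ) / 25 ^ 5 ≤ (Real.exp (logMahler P) ^ 4) ^ 5 := by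
  rcases Nat.eq_zero_or_pos (newtonDim P) with h0 | h0
  · rw [h0]; simp; positivity
  have hm : (1 : ℝ) ≤ newtonDim P := by exact_mod_cast h0
  rcases h with hR | ⟨i, hi, hd⟩
  · have h1 : (newtonDim P : ℝ) / 4 ≤ Real.exp (logMahler P) ^ 4 :=
      Pool.Agent.H589.Boyd.finAT k P hP hR
    have h2 := pow_le_pow_left₀ (by positivity) h1 5
    refine le_trans ?_ h2
    rw [div_pow]
    have h3 : (newtonDim P : ℝ) ≤ (newtonDim P : ℝ) ^ 5 := by
      calc (newtonDim P : ℝ) = (newtonDim P : ℝ) ^ 1 := (pow_one _).symm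
        _ ≤ (newtonDim P : ℝ) ^ 5 := pow_le_pow_right₀ hm (by norm_num)
    exact div_le_div₀ (by positivity) h3 (by positivity) (by norm_num)
  · have h1 : (newtonDim P : ℝ) / ((P.degreeOf i : ℝ) ^ 2 + 4) ^ 2 ≤
        Real.exp (logMahler P) ^ 4 := Pool.Agent.H589.Boyd.bound_degree2 P hP i hi
    have h2 := pow_le_pow_left₀ (by positivity) h1 5
    refine le_trans ?_ h2
    have hd1 : (1 : ℝ) ≤ P.degreeOf i := by exact_mod_cast hi
    have hd5 : (P.degreeOf i : ℝ) ^ 5 ≤ newtonDim P := by exact_mod_cast hd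
    rw [div_pow, div_le_div_iff₀ (by positivity) (by positivity)]
    have h3 : (((P.degreeOf i : ℝ) ^ 2 + 4) ^ 2) ^ 5 ≤ 25 ^ 5 * (newtonDim P : ℝ) ^ 4 := by
      calc (((P.degreeOf i : ℝ) ^ 2 + 4) ^ 2) ^ 5 ≤ ((5 * (P.degreeOf i : ℝ) ^ 2) ^ 2) ^ 5 := by
            gcongr; nlinarith
        _ = 25 ^ 5 * ((P.degreeOf i : ℝ) ^ 5) ^ 4 := by ring
        _ ≤ 25 ^ 5 * (newtonDim P : ℝ) ^ 4 := by gcongr
    calc (newtonDim P : ℝ) * (((P.degreeOf i : ℝ) ^ 2 + 4) ^ 2) ^ 5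
        ≤ (newtonDim P : ℝ) * (25 ^ 5 * (newtonDim P : ℝ) ^ 4) := by gcongr
      _ = (newtonDim P : ℝ) ^ 5 * 25 ^ 5 := by ring

theorem result (k : ℕ → ℕ) (F : ∀ n, MvPolynomial (Fin (k n)) ℤ)
    (hirr : ∀ n, Irreducible (F n)) (hdim : Tendsto (fun n => newtonDim (F n)) atTop atTop)
    (h : ∀ n, ¬ IsReciprocal (F n) ∨
      ∃ i, 1 ≤ (F n).degreeOf i ∧ (F n).degreeOf i ^ 5 ≤ newtonDim (F n)) :
    Tendsto (fun n => logMahler (F n)) atTop atTop ∧
    ∀ (k' : ℕ) (G : MvPolynomial (Fin k') ℤ), G ≠ 0 →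
      {n : ℕ | logMahler (F n) ∈ measureSet G}.Finite := by
  have h1 : Tendsto (fun n => logMahler (F n)) atTop atTop := by
    have h2 : Tendsto (fun n => (Real.log (newtonDim (F n)) - Real.log (25 ^ 5)) / 20) atTop
        atTop := by
      refine Tendsto.atTop_div_const (by norm_num) ?_
      refine tendsto_atTop_add_const_right _ _ ?_
      exact Real.tendsto_log_atTop.comp (tendsto_natCast_atTop_atTop.comp hdim)
    refine tendsto_atTop_mono' _ ?_ h2
    filter_upwards [hdim.eventually_ge_atTop 1] with n hn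
    have hm : (0 : ℝ) < newtonDim (F n) := by exact_mod_cast hn
    have h3 := key (F n) (hirr n) (h n)
    have h4 := Real.log_le_log (by positivity) h3
    have h6 : Real.log ((Real.exp (logMahler (F n)) ^ 4) ^ 5) = 20 * logMahler (F n) := by
      rw [← pow_mul, Real.log_pow, Real.log_exp]
      norm_num
    rw [Real.log_div hm.ne' (by positivity), h6] at h4
    rw [div_le_iff₀ (by norm_num : (0 : ℝ) < 20), mul_comm]
    exact h4
  refine ⟨h1, fun k' G _ => ?_⟩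
  obtain ⟨C, hC⟩ := measureSet_bdd G
  have h5 := h1.eventually_gt_atTop C
  rw [eventually_atTop] at h5
  obtain ⟨N, hN⟩ := h5
  refine (Set.finite_Iio N).subset fun n hn => ?_
  by_contra hcon
  have := hN n (by simpa using hcon)
  exact absurd (hC _ hn) (not_le.mpr this)

end Pool.Agent.Results.MP_44c6d5_nt.NonreciprocalOrSmallDegree
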